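import Pool.Agent.Y956.CP.Poly
import Pool.Agent.Y956.CP.Trf

/-!
# The Liouville function at the values of polynomials which are, up to squares, products of linear factors
-/

set_option autoImplicit false

namespace Pool.Agent.Results.MP_892e4c_nt.DilatedLinearFactors

open Finset Polynomial

/-- the Liouville function on the integers, `lam (-m) = lam m`, `lam 0 = 0` -/
noncomputable def lam (m : ℤ) : ℝ := if m = 0 then 0 else (-1) ^ (ArithmeticFunction.cardFactors m.natAbs)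

/-- the logarithmic average over the scales `Y < x ≤ W` -/
noncomputable def scales (φ : ℕ → ℝ) (Y W : ℕ) : ℝ :=
  (1 / Real.log ((W : ℝ) / Y)) * ∑ x ∈ Ioc Y W, (1 / (x : ℝ)) * φ x

/-- the average of `lam (f n)` over `1 ≤ n ≤ x` -/
noncomputable def ave (f : ℤ[X]) (x : ℕ) : ℝ := (1 / (x : ℝ)) * ∑ n ∈ Icc 1 x, lam (f.eval (n : ℤ))

/-- the product of `c * g ^ 2`, of the displaced factor `a₀ T + d` and of the factors `a i * T + h * b i` -/
noncomputable def pol (c : ℤ) (g : ℤ[X]) {k : ℕ} (a : Fin k → ℕ) (b : Fin k → ℤ) (a₀ h : ℕ) (d : ℤ) : ℤ[X] :=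
  C c * g ^ 2 * ((C (a₀ : ℤ) * X + C d) * ∏ i, (C (a i : ℤ) * X + C ((h : ℤ) * b i)))

open Classical in
/-- the exceptional pairs `(h, d)` for the scales between `Y` and `W` -/
noncomputable def exc (c : ℤ) (g : ℤ[X]) {k : ℕ} (a : Fin k → ℕ) (b : Fin k → ℤ) (a₀ : ℕ) (ε : ℝ)
    (S : Finset (ℕ × ℤ)) (Y W : ℕ) : Finset (ℕ × ℤ) :=
  S.filter (fun e => ε < scales (fun x => |ave (pol c g a b a₀ e.1 e.2) x|) Y W)

lemma lam_eq (m : ℤ) : lam m = Pool.Agent.Y956.CP.Poly.lam m := rfl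

lemma lam_sq (m : ℤ) : lam m * lam m = if m = 0 then 0 else 1 := by
  unfold lam
  split_ifs
  · simp
  · rw [← pow_add, ← two_mul, pow_mul]
    simp

lemma ave_le (c : ℤ) (g : ℤ[X]) : ∃ B : ℝ, 0 ≤ B ∧ ∀ {k : ℕ} (a : Fin k → ℕ) (b : Fin k → ℤ) (a₀ : ℕ) (h : ℕ)
    (d : ℤ) (x : ℕ), 1 ≤ x → |ave (pol c g a b a₀ h d) x| ≤
      |Pool.Agent.Y956.CP.Poly.ave (Pool.Agent.Y956.CP.Poly.pol a b a₀ h d) 1 0 x| + B * (1 / (x : ℝ)) := by
  classical
  by_cases hg : g = 0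
  · refine ⟨0, le_rfl, fun a b a₀ h d x hx => ?_⟩
    have e : ave (pol c g a b a₀ h d) x = 0 := by
      unfold ave pol
      rw [hg]
      simp [lam]
    rw [e, abs_zero]
    have := abs_nonneg (Pool.Agent.Y956.CP.Poly.ave (Pool.Agent.Y956.CP.Poly.pol a b a₀ h d) 1 0 x)
    linarith
  · refine ⟨(g.roots.toFinset.card : ℝ), by positivity, fun {k} a b a₀ h d x hx => ?_⟩
    have hx0 : (0 : ℝ) < x := by exact_mod_cast hx
    set P : ℕ → ℝ := fun n => lam ((Pool.Agent.Y956.CP.Poly.pol a b a₀ h d).eval (n : ℤ)) with hP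
    have hP1 : ∀ n, |P n| ≤ 1 := fun n => Pool.Agent.Y956.CP.Poly.lam_abs _
    have e1 : ave (pol c g a b a₀ h d) x = lam c * ((1 / (x : ℝ)) * ∑ n ∈ Icc 1 x, P n) -
        lam c * ((1 / (x : ℝ)) * ∑ n ∈ Icc 1 x, (if g.eval (n : ℤ) = 0 then P n else 0)) := by
      unfold ave
      rw [← mul_sub, ← mul_sub, ← sum_sub_distrib, mul_left_comm]
      congr 1
      rw [mul_sum]
      apply sum_congr rfl
      intro n _
      have e2 : (pol c g a b a₀ h d).eval (n : ℤ) = c * ((g.eval (n : ℤ) * g.eval (n : ℤ)) *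
          (Pool.Agent.Y956.CP.Poly.pol a b a₀ h d).eval (n : ℤ)) := by
        unfold pol
        rw [eval_mul, eval_mul, eval_C, eval_pow, sq, mul_assoc]
        rfl
      rw [e2, lam_eq, Pool.Agent.Y956.CP.Poly.lam_mul, Pool.Agent.Y956.CP.Poly.lam_mul,
        Pool.Agent.Y956.CP.Poly.lam_mul, ← lam_eq, ← lam_eq, ← lam_eq, lam_sq]
      simp only [hP]
      split_ifs
      · ring
      · ring
    have e3 : (1 / (x : ℝ)) * ∑ n ∈ Icc 1 x, P n =
        Pool.Agent.Y956.CP.Poly.ave (Pool.Agent.Y956.CP.Poly.pol a b a₀ h d) 1 0 x := by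
      unfold Pool.Agent.Y956.CP.Poly.ave
      congr 1
      have e4 : (Icc 1 x).filter (fun t : ℕ => (t : ℤ) ≡ 0 [ZMOD ((1 : ℕ) : ℤ)]) = Icc 1 x := by
        apply filter_true_of_mem
        intro t _
        exact Int.modEq_one
      rw [e4]
      rfl
    have hc1 : |lam c| ≤ 1 := Pool.Agent.Y956.CP.Poly.lam_abs c
    have e5 : |(1 / (x : ℝ)) * ∑ n ∈ Icc 1 x, (if g.eval (n : ℤ) = 0 then P n else 0)| ≤
        (g.roots.toFinset.card : ℝ) * (1 / (x : ℝ)) := by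
      rw [abs_mul, abs_of_pos (by positivity : (0 : ℝ) < 1 / (x : ℝ)), mul_comm]
      apply mul_le_mul_of_nonneg_right _ (by positivity)
      refine (abs_sum_le_sum_abs _ _).trans ?_
      calc ∑ n ∈ Icc 1 x, |(if g.eval (n : ℤ) = 0 then P n else 0)|
          ≤ ∑ n ∈ Icc 1 x, (if g.eval (n : ℤ) = 0 then (1 : ℝ) else 0) := by
            apply sum_le_sum
            intro n _
            split_ifs
            · exact hP1 n
            · simp
        _ = ((((Icc 1 x).filter (fun n : ℕ => g.eval (n : ℤ) = 0)).card : ℕ) : ℝ) := by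
            rw [← sum_filter, sum_const, nsmul_eq_mul, mul_one]
        _ ≤ (g.roots.toFinset.card : ℝ) := by
            have h1 : ((Icc 1 x).filter (fun n : ℕ => g.eval (n : ℤ) = 0)).card ≤ g.roots.toFinset.card := by
              apply card_le_card_of_injOn (fun n : ℕ => (n : ℤ))
              · intro n hn
                rw [mem_coe, mem_filter] at hn
                rw [mem_coe, Multiset.mem_toFinset, mem_roots hg]
                exact hn.2
              · intro n _ m _ hnm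
                have h2 : (n : ℤ) = (m : ℤ) := hnm
                exact_mod_cast h2
            exact_mod_cast h1
    rw [e1, e3]
    refine (abs_sub _ _).trans (add_le_add ?_ ?_)
    · rw [abs_mul]
      exact mul_le_of_le_one_left (abs_nonneg _) hc1
    · rw [abs_mul]
      exact (mul_le_of_le_one_left (abs_nonneg _) hc1).trans e5

theorem result : ∀ (k A : ℕ) (ε : ℝ), 0 < ε → ∃ C : ℝ, ∃ H₀ : ℕ, ∀ (c : ℤ) (g : ℤ[X]) (a : Fin k → ℕ) (a₀ : ℕ)
    (b : Fin k → ℤ), (∀ i, 1 ≤ a i ∧ a i ≤ A) → 1 ≤ a₀ → a₀ ≤ A →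
    ∀ S : Finset (ℕ × ℤ), (∀ e ∈ S, 1 ≤ e.1) →
    (∀ e ∈ S, ∀ e' ∈ S, e ≠ e' → e.2 * (e'.1 : ℤ) ≠ e'.2 * (e.1 : ℤ)) →
    ∃ ω₀ : ℕ, ∀ Y W : ℕ, 1 ≤ Y → ω₀ * Y ≤ W →
      ∑ e ∈ exc c g a b a₀ ε S Y W, 1 / (e.1 : ℝ) ≤ C ∧
      ∀ H : ℕ, H₀ ≤ H → (((exc c g a b a₀ ε S Y W).filter (fun e => e.1 ≤ H)).card : ℝ) ≤ ε * H := by
  classical
  intro k A ε hε
  obtain ⟨C, H₀, h⟩ := Pool.Agent.Y956.CP.Poly.main k (A + 1) (ε / 2) (by positivity)
  refine ⟨C, H₀, fun c g a a₀ b ha ha₀ ha₀A S hS1 hS2 => ?_⟩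
  obtain ⟨ω₀, h1⟩ := h a a₀ b (fun i => ⟨(ha i).1, (ha i).2.trans (by omega)⟩) ha₀ (by omega) 1 0 le_rfl
    (by omega) S hS1 hS2
  obtain ⟨B, hB0, hB⟩ := ave_le c g
  obtain ⟨n₀, h3⟩ := Pool.Agent.Y956.CP.Trf.wa_transfer S
    (fun e x => |Pool.Agent.Y956.CP.Poly.ave (Pool.Agent.Y956.CP.Poly.pol a b a₀ e.1 e.2) 1 0 x|)
    (fun e x => |ave (pol c g a b a₀ e.1 e.2) x|) B hB0
    (fun e _ x hx => hB a b a₀ e.1 e.2 x hx) ε hε
  refine ⟨max ω₀ n₀, fun Y W hY hW => ?_⟩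
  obtain ⟨h4, h5⟩ := h1 Y W hY ((Nat.mul_le_mul_right Y (le_max_left _ _)).trans hW)
  have h8 := h3 Y W hY ((Nat.mul_le_mul_right Y (le_max_right ω₀ n₀)).trans hW)
  have hsub : exc c g a b a₀ ε S Y W ⊆ Pool.Agent.Y956.CP.Poly.exc a b a₀ 1 0 (ε / 2) S Y W := by
    intro e he
    unfold exc at he
    rw [mem_filter] at he
    rw [Pool.Agent.Y956.CP.Poly.exc, mem_filter]
    exact ⟨he.1, h8 e he.1 he.2⟩
  constructor
  · exact (sum_le_sum_of_subset_of_nonneg hsub fun _ _ _ => by positivity).trans h4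
  · intro H hH
    have g1 := h5 H hH
    have g3 : (((exc c g a b a₀ ε S Y W).filter (fun e => e.1 ≤ H)).card : ℝ) ≤
        (((Pool.Agent.Y956.CP.Poly.exc a b a₀ 1 0 (ε / 2) S Y W).filter (fun e => e.1 ≤ H)).card : ℝ) := by
      exact_mod_cast card_le_card (filter_subset_filter (fun e : ℕ × ℤ => e.1 ≤ H) hsub)
    have g6 : (0 : ℝ) ≤ H := by positivity
    nlinarith

end Pool.Agent.Results.MP_892e4c_nt.DilatedLinearFactors
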