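import Pool.Agent.Y585.SP.I

/-!
# The Liouville function at polynomial values `f(n) L_1(n) ⋯ L_k(n)`, for almost all linear factors

Let `λ` be the Liouville function, `λ(-m) = λ(m)`, `λ(0) = 0`.  There is one set `F` of logarithmic
density zero such that the following holds for every finite set `A` of pairwise non-proportional
linear forms `L(n) = a n + b`, `a ≥ 1`, `b ≥ 0`, for all large `N` outside `F`, and for ALL integer
polynomials `f` and all weights `g` bounded by one at once.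

1. The sum over the forms `L` in `A` of the squares of `(1/N) ∑_{n ≤ N} g(n) λ(f(n) L(n))` is at most
   `1 + η`.  So `|∑_{n ≤ N} g(n) λ(f(n) L(n))| ≤ δ N` for all but at most `(1 + η) / δ²` of the forms,
   however many there are.
2. `|∑_{n ≤ N} g(n) λ(f(n) L_1(n) ⋯ L_k(n))| ≤ δ N` for all but `(2 / δ²) |A|^(k-1)` of the `k`-tuples
   of forms in `A`.
3. For all but `(2^(k+1) / δ²) |A|^(k-1)` of the `k`-tuples each of the `2^k` sign patterns of
   `λ(L_1(n)), …, λ(L_k(n))` has frequency `2^(-k)`, up to `δ`, relative to the weight `g`, for example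
   on the set of the `n` where finitely many given polynomials have prescribed signs `λ(f_i(n))`.

Method.  By the two-point theorem for natural averages at almost all scales
(`Pool.Agent.Y842.EL.one_set` of helper842, after `Pool.Agent.Y958.TC`; Tao, Tao-Teräväinen) the
functions `λ(a n + b)` are nearly orthonormal.  Bessel's inequality does the rest.
-/

set_option autoImplicit false

namespace Pool.Agent.Results.MP_892e4c_nt.LinearFactors

open Finset Filter

/-- The Liouville function of an integer, `λ(-m) = λ(m)`, `λ(0) = 0`. -/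
def lam (m : ℤ) : ℤ := if m = 0 then 0 else (-1) ^ ArithmeticFunction.cardFactors m.natAbs

open Classical in
/-- Logarithmic density zero. -/
def LogDensityZero (F : Set ℕ) : Prop :=
  Tendsto (fun X : ℕ => (∑ n ∈ Icc 1 X, if n ∈ F then (1 : ℝ) / n else 0) / Real.log X) atTop
    (nhds 0)

/-- The forms `a n + b`, `(a, b) ∈ A`, have `a ≥ 1` and no two of them are proportional. -/
def Forms (A : Finset (ℕ × ℕ)) : Prop :=
  (∀ p ∈ A, 1 ≤ p.1) ∧ ∀ p ∈ A, ∀ q ∈ A, p ≠ q → p.1 * q.2 ≠ q.1 * p.2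

/-- The product `f(n) (a_1 n + b_1) ⋯ (a_k n + b_k)`. -/
noncomputable def val (f : Polynomial ℤ) {k : ℕ} (h : Fin k → ℕ × ℕ) (n : ℕ) : ℤ :=
  f.eval (n : ℤ) * ∏ i, (((h i).1 : ℤ) * n + (h i).2)

section aux

open Pool.Agent.Y585.SP

lemma lam_abs (m : ℤ) : |(lam m : ℝ)| ≤ 1 := by
  unfold lam
  split_ifs
  · simp
  · push_cast
    rw [abs_pow, abs_neg, abs_one, one_pow]

lemma lam_nat {m : ℕ} (hm : m ≠ 0) : (lam (m : ℤ) : ℝ) = lr m := by
  unfold lam lr
  rw [if_neg (by exact_mod_cast hm)]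
  simp

lemma lam_mul (m n : ℤ) : lam (m * n) = lam m * lam n := by
  unfold lam
  by_cases hm : m = 0
  · simp [hm]
  · by_cases hn : n = 0
    · simp [hn]
    · rw [if_neg (mul_ne_zero hm hn), if_neg hm, if_neg hn, Int.natAbs_mul,
        ArithmeticFunction.cardFactors_mul (Int.natAbs_ne_zero.2 hm) (Int.natAbs_ne_zero.2 hn),
        pow_add]

lemma lam_prod {ι : Type*} (S : Finset ι) (F : ι → ℤ) : lam (∏ i ∈ S, F i) = ∏ i ∈ S, lam (F i) := by
  classical
  induction S using Finset.induction_on with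
  | empty => simp [lam]
  | insert i S hi ih => rw [prod_insert hi, prod_insert hi, lam_mul, ih]

lemma lam_form {a b n : ℕ} (ha : 1 ≤ a) (hn : 1 ≤ n) :
    (lam ((a : ℤ) * n + b) : ℝ) = lr (a * n + b) := by
  have h1 : 1 ≤ a * n := Nat.mul_pos ha hn
  have h2 : ((a : ℤ) * n + b) = ((a * n + b : ℕ) : ℤ) := by push_cast; ring
  rw [h2, lam_nat (by omega)]

lemma lam_val (f : Polynomial ℤ) {k : ℕ} (h : Fin k → ℕ × ℕ) (hh : ∀ i, 1 ≤ (h i).1) {n : ℕ}
    (hn : 1 ≤ n) : (lam (val f h n) : ℝ) =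
      lam (f.eval (n : ℤ)) * ∏ i, lr ((h i).1 * n + (h i).2) := by
  unfold val
  rw [lam_mul, lam_prod]
  push_cast
  congr 1
  exact prod_congr rfl fun i _ => lam_form (hh i) hn

end aux

open Classical in
/-- The Liouville function at products of a polynomial and linear forms. -/
theorem result : ∃ F : Set ℕ, LogDensityZero F ∧ ∀ A : Finset (ℕ × ℕ), Forms A →
    -- (1) one linear factor
    (∀ η : ℝ, 0 < η → ∃ N₀ : ℕ, ∀ N : ℕ, N₀ ≤ N → N ∉ F →
      ∀ (f : Polynomial ℤ) (g : ℕ → ℝ), (∀ n, |g n| ≤ 1) →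
        ∑ p ∈ A, ((1 / (N : ℝ)) * ∑ n ∈ Icc 1 N,
          g n * lam (f.eval (n : ℤ) * ((p.1 : ℤ) * n + p.2))) ^ 2 ≤ 1 + η) ∧
    -- (2) several linear factors
    (∀ (k : ℕ) (δ : ℝ), 1 ≤ k → 0 < δ → ∃ N₀ : ℕ, ∀ N : ℕ, N₀ ≤ N → N ∉ F →
      ∀ (f : Polynomial ℤ) (g : ℕ → ℝ), (∀ n, |g n| ≤ 1) →
        (((Fintype.piFinset fun _ : Fin k => A).filter fun h =>
          δ * N < |∑ n ∈ Icc 1 N, g n * lam (val f h n)|).card : ℝ) ≤
            2 / δ ^ 2 * (A.card : ℝ) ^ (k - 1)) ∧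
    -- (3) sign patterns
    (∀ (k : ℕ) (δ : ℝ), 0 < δ → ∃ N₀ : ℕ, ∀ N : ℕ, N₀ ≤ N → N ∉ F →
      ∀ g : ℕ → ℝ, (∀ n, |g n| ≤ 1) →
        (((Fintype.piFinset fun _ : Fin k => A).filter fun h => ¬ ∀ ε : Fin k → ℤ,
          (∀ i, ε i = 1 ∨ ε i = -1) →
          |∑ n ∈ (Icc 1 N).filter (fun n : ℕ => ∀ i, lam (((h i).1 : ℤ) * n + (h i).2) = ε i), g n -
            (1 / 2) ^ k * ∑ n ∈ Icc 1 N, g n| ≤ δ * N).card : ℝ) ≤
          2 ^ (k + 1) / δ ^ 2 * (A.card : ℝ) ^ (k - 1)) := by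
  obtain ⟨F, hF, horth⟩ := Pool.Agent.Y585.SP.orth_forms
  refine ⟨F, hF, fun A hA => ⟨?_, ?_, ?_⟩⟩
  · intro η hη
    obtain ⟨W, hW⟩ := horth A hA.1 hA.2 (η / ((A.card : ℝ) + 1)) (by positivity)
    refine ⟨max W 1, fun N hN hNF f g hg => ?_⟩
    have o := hW N ((le_max_left _ _).trans hN) hNF
    have hN1 : 1 ≤ N := (le_max_right _ _).trans hN
    have hNpos : (0 : ℝ) < N := by exact_mod_cast hN1
    have h1 := Pool.Agent.Y585.SP.bessel (Icc 1 N) (fun _ => 1) o.pos A
      (fun (p : ℕ × ℕ) m => Pool.Agent.Y585.SP.lr (p.1 * m + p.2)) N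
      (η / ((A.card : ℝ) + 1) * N) o.V0 o.eta
      (fun p _ => by
        rw [← o.tot]
        exact (sum_congr rfl fun m _ => by rw [Pool.Agent.Y585.SP.lr_sq, mul_one]).le)
      o.orth (fun n => g n * lam (f.eval (n : ℤ)))
    have h2 : ∑ m ∈ Icc 1 N, (1 : ℝ) * (g m * lam (f.eval (m : ℤ))) ^ 2 ≤ N := by
      refine (sum_le_sum (g := fun _ => (1 : ℝ)) fun m _ => ?_).trans (by simp)
      rw [one_mul, ← sq_abs, abs_mul]
      refine pow_le_one₀ (by positivity) ?_
      exact mul_le_one₀ (hg m) (abs_nonneg _) (lam_abs _)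
    have h3 : ((N : ℝ) + A.card * (η / ((A.card : ℝ) + 1) * N)) ≤ (1 + η) * N := by
      have : (A.card : ℝ) / ((A.card : ℝ) + 1) ≤ 1 := by
        rw [div_le_one (by positivity)]; linarith
      have e : (A.card : ℝ) * (η / ((A.card : ℝ) + 1) * N) =
          (A.card : ℝ) / ((A.card : ℝ) + 1) * (η * N) := by ring
      rw [e]
      have h4 := mul_le_mul_of_nonneg_right this (by positivity : 0 ≤ η * N)
      linarith
    have h4 : ∑ p ∈ A, (∑ m ∈ Icc 1 N, 1 * (g m * lam (f.eval (m : ℤ)) *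
        Pool.Agent.Y585.SP.lr (p.1 * m + p.2))) ^ 2 ≤ (1 + η) * N * N := by
      refine h1.trans ?_
      exact mul_le_mul h3 h2 (sum_nonneg fun m _ => by positivity) (by positivity)
    have e1 : ∑ p ∈ A, ((1 / (N : ℝ)) * ∑ n ∈ Icc 1 N,
        g n * lam (f.eval (n : ℤ) * ((p.1 : ℤ) * n + p.2))) ^ 2 =
        (1 / (N : ℝ)) ^ 2 * ∑ p ∈ A, (∑ m ∈ Icc 1 N, 1 * (g m * lam (f.eval (m : ℤ)) *
          Pool.Agent.Y585.SP.lr (p.1 * m + p.2))) ^ 2 := by
      rw [mul_sum]
      refine sum_congr rfl fun p hp => ?_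
      rw [mul_pow]
      congr 2
      refine sum_congr rfl fun n hn => ?_
      rw [lam_mul]
      push_cast
      rw [lam_form (hA.1 p hp) (mem_Icc.1 hn).1]
      ring
    rw [e1]
    calc (1 / (N : ℝ)) ^ 2 * _ ≤ (1 / (N : ℝ)) ^ 2 * ((1 + η) * N * N) :=
          mul_le_mul_of_nonneg_left h4 (by positivity)
      _ = 1 + η := by field_simp
  · intro k δ hk hδ
    obtain ⟨W, hW⟩ := horth A hA.1 hA.2 (1 / ((A.card : ℝ) + 1)) (by positivity)
    refine ⟨max W 1, fun N hN hNF f g hg => ?_⟩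
    have o := hW N ((le_max_left _ _).trans hN) hNF
    have hN1 : 1 ≤ N := (le_max_right _ _).trans hN
    have hNpos : (0 : ℝ) < N := by exact_mod_cast hN1
    obtain ⟨k', rfl⟩ : ∃ k', k = k' + 1 := ⟨k - 1, by omega⟩
    have h1 := Pool.Agent.Y585.SP.sum_sq_tuples o (fun n => g n * lam (f.eval (n : ℤ)))
      (univ : Finset (Fin (k' + 1))) univ_nonempty
    have h2 : ∑ m ∈ Icc 1 N, (1 : ℝ) * (g m * lam (f.eval (m : ℤ))) ^ 2 ≤ N := by
      refine (sum_le_sum (g := fun _ => (1 : ℝ)) fun m _ => ?_).trans (by simp)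
      rw [one_mul, ← sq_abs, abs_mul]
      refine pow_le_one₀ (by positivity) ?_
      exact mul_le_one₀ (hg m) (abs_nonneg _) (lam_abs _)
    have h3 : ((N : ℝ) + A.card * (1 / ((A.card : ℝ) + 1) * N)) ≤ 2 * N := by
      have : (A.card : ℝ) / ((A.card : ℝ) + 1) ≤ 1 := by
        rw [div_le_one (by positivity)]; linarith
      have e : (A.card : ℝ) * (1 / ((A.card : ℝ) + 1) * N) =
          (A.card : ℝ) / ((A.card : ℝ) + 1) * N := by ring
      rw [e]
      have h4 := mul_le_mul_of_nonneg_right this hNpos.le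
      linarith
    have h4 : ∑ h ∈ Fintype.piFinset (fun _ : Fin (k' + 1) => A),
        (Pool.Agent.Y585.SP.cor (Icc 1 N) (fun _ => 1)
          (fun (p : ℕ × ℕ) m => Pool.Agent.Y585.SP.lr (p.1 * m + p.2))
          (fun n => g n * lam (f.eval (n : ℤ))) h univ) ^ 2 ≤
        (A.card : ℝ) ^ (k' + 1 - 1) * (2 * N * N) := by
      refine h1.trans (mul_le_mul_of_nonneg_left ?_ (by positivity))
      exact mul_le_mul h3 h2 (sum_nonneg fun m _ => by positivity) (by positivity)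
    have h5 : (((Fintype.piFinset fun _ : Fin (k' + 1) => A).filter fun h =>
          δ * N < |∑ n ∈ Icc 1 N, g n * lam (val f h n)|).card : ℝ) * (δ * N) ^ 2 ≤
        ∑ h ∈ Fintype.piFinset (fun _ : Fin (k' + 1) => A),
        (Pool.Agent.Y585.SP.cor (Icc 1 N) (fun _ => 1)
          (fun (p : ℕ × ℕ) m => Pool.Agent.Y585.SP.lr (p.1 * m + p.2))
          (fun n => g n * lam (f.eval (n : ℤ))) h univ) ^ 2 := by
      rw [← nsmul_eq_mul, ← sum_const]
      refine (sum_le_sum fun h hh => ?_).trans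
        (sum_le_sum_of_subset_of_nonneg (filter_subset _ _) fun h _ _ => sq_nonneg _)
      rw [mem_filter] at hh
      have hpos : ∀ i, 1 ≤ (h i).1 := fun i => hA.1 _ (Fintype.mem_piFinset.1 hh.1 i)
      have e : Pool.Agent.Y585.SP.cor (Icc 1 N) (fun _ => 1)
          (fun (p : ℕ × ℕ) m => Pool.Agent.Y585.SP.lr (p.1 * m + p.2))
          (fun n => g n * lam (f.eval (n : ℤ))) h univ =
          ∑ n ∈ Icc 1 N, g n * lam (val f h n) := by
        unfold Pool.Agent.Y585.SP.cor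
        refine sum_congr rfl fun n hn => ?_
        rw [lam_val f h hpos (mem_Icc.1 hn).1]
        ring
      rw [e, ← sq_abs (∑ n ∈ Icc 1 N, g n * lam (val f h n))]
      exact pow_le_pow_left₀ (by positivity) hh.2.le 2
    have h6 := h5.trans h4
    have h7 : 2 / δ ^ 2 * (A.card : ℝ) ^ (k' + 1 - 1) =
        ((A.card : ℝ) ^ (k' + 1 - 1) * (2 * N * N)) / (δ * N) ^ 2 := by
      field_simp
    rw [h7, le_div_iff₀ (by positivity)]
    exact h6
  · intro k δ hδ
    obtain ⟨W, hW⟩ := horth A hA.1 hA.2 (1 / ((A.card : ℝ) + 1)) (by positivity)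
    refine ⟨max W 1, fun N hN hNF g hg => ?_⟩
    have o := hW N ((le_max_left _ _).trans hN) hNF
    have hN1 : 1 ≤ N := (le_max_right _ _).trans hN
    have hNpos : (0 : ℝ) < N := by exact_mod_cast hN1
    have hη : (A.card : ℝ) * (1 / ((A.card : ℝ) + 1) * (N : ℝ)) ≤ N := by
      have : (A.card : ℝ) / ((A.card : ℝ) + 1) ≤ 1 := by
        rw [div_le_one (by positivity)]; linarith
      have e : (A.card : ℝ) * (1 / ((A.card : ℝ) + 1) * N) =
          (A.card : ℝ) / ((A.card : ℝ) + 1) * N := by ring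
      rw [e]
      have h4 := mul_le_mul_of_nonneg_right this hNpos.le
      linarith
    have h1 := Pool.Agent.Y585.SP.count_bad (k := k) o hNpos hη g hg hδ
    refine le_trans ?_ h1
    have : (((Fintype.piFinset fun _ : Fin k => A).filter fun h => ¬ ∀ ε : Fin k → ℤ,
          (∀ i, ε i = 1 ∨ ε i = -1) →
          |∑ n ∈ (Icc 1 N).filter (fun n : ℕ => ∀ i, lam (((h i).1 : ℤ) * n + (h i).2) = ε i), g n -
            (1 / 2) ^ k * ∑ n ∈ Icc 1 N, g n| ≤ δ * N)) ⊆
        ((Fintype.piFinset (fun _ : Fin k => A)).filter fun h =>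
          ¬ Pool.Agent.Y585.SP.Good (Icc 1 N) (fun _ => 1)
            (fun (p : ℕ × ℕ) m => Pool.Agent.Y585.SP.lr (p.1 * m + p.2)) g δ (N : ℝ) h) := by
      intro h hh
      rw [mem_filter] at hh ⊢
      refine ⟨hh.1, fun hgood => hh.2 fun ε hε => ?_⟩
      have hpos : ∀ i, 1 ≤ (h i).1 := fun i => hA.1 _ (Fintype.mem_piFinset.1 hh.1 i)
      have h2 := hgood (fun i => (ε i : ℝ)) (fun i => by
        rcases hε i with h | h <;> rw [h] <;> simp)
      have e1 : ∑ n ∈ (Icc 1 N).filter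
          (fun n : ℕ => ∀ i, lam (((h i).1 : ℤ) * n + (h i).2) = ε i), g n =
          ∑ m ∈ Icc 1 N, (if ∀ i, Pool.Agent.Y585.SP.lr ((h i).1 * m + (h i).2) = (ε i : ℝ) then
            1 * g m else 0) := by
        rw [sum_filter]
        refine sum_congr rfl fun m hm => ?_
        have e : (∀ i, lam (((h i).1 : ℤ) * m + (h i).2) = ε i) ↔
            ∀ i, Pool.Agent.Y585.SP.lr ((h i).1 * m + (h i).2) = (ε i : ℝ) := by
          refine forall_congr' fun i => ?_
          rw [← lam_form (hpos i) (mem_Icc.1 hm).1]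
          exact Int.cast_inj.symm
        by_cases hh : ∀ i, lam (((h i).1 : ℤ) * m + (h i).2) = ε i
        · rw [if_pos hh, if_pos (e.1 hh), one_mul]
        · rw [if_neg hh, if_neg fun h' => hh (e.2 h')]
      have e2 : ∑ m ∈ Icc 1 N, g m = ∑ m ∈ Icc 1 N, 1 * g m :=
        sum_congr rfl fun m _ => (one_mul _).symm
      rw [e1, e2]
      convert h2 using 6
    exact_mod_cast card_le_card this

end Pool.Agent.Results.MP_892e4c_nt.LinearFactors
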