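import Pool.Agent.Y885.KP4

/-!
# The Liouville function at the values of arbitrary polynomials times linear factors, the constant terms of which are
random sums with up to two fifths of the scales missing
-/

set_option autoImplicit false

namespace Pool.Agent.Results.MP_892e4c_nt.RandomSumConstants

open Finset

/-- The Liouville function on the integers, `λ(-m) = λ(m)` and `λ(0) = 0`. -/
def lam (m : ℤ) : ℤ := if m = 0 then 0 else (-1) ^ ArithmeticFunction.cardFactors m.natAbs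

/-- The set `J` of scales below `k` is rich: it contains more than three fifths of all the scales, more than one half
of the `m` lowest scales, and a positive proportion of the `m` highest scales (the last two conditions are
void for `m ≤ D log k`). -/
structure Rich (δ : ℝ) (D k : ℕ) (J : Finset ℕ) : Prop where
  lt : ∀ j ∈ J, j < k
  all : (3 / 5 + δ) * k ≤ (J.card : ℝ)
  low : ∀ m ≤ k, (1 / 2 + δ) * m ≤ ((J.filter fun j => j < m).card : ℝ) + D * Real.log k
  high : ∀ m ≤ k, δ * m ≤ ((J.filter fun j => k - m ≤ j).card : ℝ) + D * Real.log k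

open Classical in
/-- The probability of the event `E` if the `x i j`, for `i < s` and `j < k`, are independent random integers, where
`x i j` takes its values in the finite set `σ i j`, and the value `v` with the probability `p i j v`. -/
noncomputable def Prob (s k : ℕ) (σ : Fin s → ℕ → Finset ℤ) (p : Fin s → ℕ → ℤ → ℝ) (E : (Fin s → Fin k → ℤ) → Prop) : ℝ :=
  ∑ x ∈ Fintype.piFinset (fun i : Fin s => Fintype.piFinset (fun j : Fin k => σ i j)),
    if E x then ∏ i, ∏ j : Fin k, p i j (x i j) else 0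

/-- The sum of `λ(F(n))` over the `n ≤ X` with `n ≡ r mod q`, where `F` is the product of the polynomial `f` and of the
polynomials `α i T + a i`, `i ∈ I`. -/
noncomputable def lamSum {s : ℕ} (f : Polynomial ℤ) (α : Fin s → ℕ) (a : Fin s → ℤ) (I : Finset (Fin s)) (q r X : ℕ) : ℤ :=
  ∑ n ∈ (Icc 1 X).filter (fun n => n ≡ r [MOD q]),
    lam ((f * ∏ i ∈ I, (Polynomial.C (α i : ℤ) * Polynomial.X + Polynomial.C (a i))).eval (n : ℤ))

/-- Let `b ≥ 2`, `B ≥ 1`, `D`, `κ`, `U`, `η > 0` and `δ > 0` be fixed, let `k` be large, `2 ^ s ≤ k ^ κ`, and let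
`J 1, ..., J s` be arbitrary rich sets of scales below `k`. Let the `x i j` (`i < s`, `j < k`) be arbitrary independent
random integers with `|x i j| ≤ B b ^ j` such that, for all `j` in `J i`, no interval of the length `b ^ j / B` contains
`x i j` with a probability larger than `1 - η` (nothing is assumed for the other `j`: these `x i j` may be constants).
Let `|c i| ≤ B b ^ k` and `α i ≥ 1` be arbitrary integers, and let `f l`, where `l` ranges over at most `k ^ κ`
indices, be arbitrary polynomials with integer coefficients (of any degree). Then, with a probability of at least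
`1 - 1 / k ^ U`, the integers `a i = c i + ∑ j, x i j` have the following property: if none of them is negative, then
`|∑ n ≤ X, n ≡ r mod q, λ(F(n))| ≤ b ^ k / k ^ U` for all `l` and all nonempty sets `I` of indices, where
`F = f l * ∏ i ∈ I, (α i T + a i)`, for all residue classes `r` modulo `q ≤ k ^ κ` and for all `X` with
`α i X ≤ B b ^ k` for all `i ∈ I`. -/
theorem result (b B D κ U : ℕ) (hb : 2 ≤ b) (hB : 1 ≤ B) (η δ : ℝ) (hη : 0 < η) (hδ : 0 < δ) :
    ∃ k₀ : ℕ, ∀ k : ℕ, k₀ ≤ k → ∀ s : ℕ, 2 ^ s ≤ k ^ κ → ∀ J : Fin s → Finset ℕ, (∀ i, Rich δ D k (J i)) →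
      ∀ (σ : Fin s → ℕ → Finset ℤ) (p : Fin s → ℕ → ℤ → ℝ),
      (∀ i, ∀ j < k, (∀ x ∈ σ i j, 0 ≤ p i j x ∧ |x| ≤ (B : ℤ) * (b : ℤ) ^ j) ∧ ∑ x ∈ σ i j, p i j x = 1) →
      (∀ i, ∀ j ∈ J i, ∀ y : ℤ, ∑ x ∈ (σ i j).filter (fun x => y ≤ x ∧ (B : ℤ) * (x - y) ≤ (b : ℤ) ^ j), p i j x ≤ 1 - η) →
      ∀ c : Fin s → ℤ, (∀ i, |c i| ≤ (B : ℤ) * (b : ℤ) ^ k) → ∀ α : Fin s → ℕ, (∀ i, 1 ≤ α i) →
      ∀ L : ℕ, L ≤ k ^ κ → ∀ f : Fin L → Polynomial ℤ,
        Prob s k σ p (fun x => (∀ i, 0 ≤ c i + ∑ j, x i j) ∧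
          ¬ ∀ l, ∀ I : Finset (Fin s), I.Nonempty → ∀ q : ℕ, 1 ≤ q → q ≤ k ^ κ → ∀ r : ℕ,
            ∀ X : ℕ, (∀ i ∈ I, α i * X ≤ B * b ^ k) →
            |((lamSum (f l) α (fun i => c i + ∑ j, x i j) I q r X : ℤ) : ℝ)| ≤ (b : ℝ) ^ k / (k : ℝ) ^ U) ≤
          1 / (k : ℝ) ^ U := by
  classical
  obtain ⟨k₀, h0⟩ := Pool.Agent.Y885.rs_kptq b B D κ U hb hB η δ hη hδ Pool.Agent.Y885.laR Pool.Agent.Y885.fine_lam
  refine ⟨k₀ + 1, fun k hk s hs J hJ σ p hσ hp c hc α hα L hL f => ?_⟩
  have hk1 : (1 : ℝ) ≤ (k : ℝ) ^ κ := one_le_pow₀ (by exact_mod_cast (by omega : 1 ≤ k))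
  have h1 := h0 k (by omega) s hs J σ p c (fun i => ⟨(hJ i).lt, (hJ i).low, (hJ i).high, (hJ i).all⟩) hσ hp hc L hL α
    (fun l n => (((Pool.Agent.Y885.laZ ((f l).eval (n : ℤ)) : ℤ) : ℝ) : ℂ)) hα (by
      intro l n _ _
      rw [Complex.norm_real, Real.norm_eq_abs]
      exact (Pool.Agent.Y885.laZ_abs _).trans hk1)
    (fun x => (∀ i, 0 ≤ c i + ∑ j, x i j) ∧
          ¬ ∀ l, ∀ I : Finset (Fin s), I.Nonempty → ∀ q : ℕ, 1 ≤ q → q ≤ k ^ κ → ∀ r : ℕ,
            ∀ X : ℕ, (∀ i ∈ I, α i * X ≤ B * b ^ k) →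
            |((lamSum (f l) α (fun i => c i + ∑ j, x i j) I q r X : ℤ) : ℝ)| ≤ (b : ℝ) ^ k / (k : ℝ) ^ U)
    (Classical.decPred _) (fun x hx hall => hx.2 fun l I hI q hq hq2 r X hX => by
      have h5 := hall l I hI q hq hq2 r X hX
      have hpos := hx.1
      obtain ⟨a, ha⟩ : ∃ a : Fin s → ℤ, a = fun i => c i + ∑ j, x i j := ⟨_, rfl⟩
      have har : ∀ i, c i + ∑ j, x i j = a i := fun i => by rw [ha]
      simp only [har] at h5 hpos ⊢
      refine le_trans (le_of_eq ?_) h5
      rw [← Real.norm_eq_abs, ← Complex.norm_real]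
      congr 1
      unfold lamSum
      push_cast
      apply sum_congr rfl
      intro t ht
      have ht1 : 1 ≤ t := (mem_Icc.1 (mem_filter.1 ht).1).1
      have e1 : lam ((f l * ∏ i ∈ I, (Polynomial.C (α i : ℤ) * Polynomial.X + Polynomial.C (a i))).eval (t : ℤ)) =
          Pool.Agent.Y885.laZ ((f l).eval (t : ℤ)) * ∏ i ∈ I, Pool.Agent.Y885.laZ (((α i * t : ℕ) : ℤ) + a i) := by
        rw [Polynomial.eval_mul, Polynomial.eval_prod]
        change Pool.Agent.Y885.laZ _ = _
        rw [Pool.Agent.Y885.laZ_mul, Pool.Agent.Y885.laZ_prod]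
        congr 1
        apply prod_congr rfl
        intro i _
        congr 1
        rw [Polynomial.eval_add, Polynomial.eval_mul, Polynomial.eval_C, Polynomial.eval_C, Polynomial.eval_X]
        push_cast
        rfl
      have e2 : ∀ i ∈ I, (((Pool.Agent.Y885.laZ (((α i * t : ℕ) : ℤ) + a i) : ℤ) : ℝ) : ℂ) =
          Pool.Agent.H373R2.T7.exI (fun n => ((Pool.Agent.Y885.laR n : ℝ) : ℂ)) (((α i * t : ℕ) : ℤ) + a i) := by
        intro i _
        have h7 := Nat.mul_pos (hα i) ht1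
        have h8 := hpos i
        unfold Pool.Agent.H373R2.T7.exI
        rw [if_pos (by omega)]
        simp only
        rw [← Pool.Agent.Y885.laZ_pos _ (by omega), Int.toNat_of_nonneg (by omega)]
      rw [e1]
      have e3 := prod_congr (rfl : I = I) e2
      push_cast at e3 ⊢
      rw [← e3])
  refine le_trans (le_of_eq ?_) h1
  unfold Prob
  apply sum_congr rfl
  intro x _
  split_ifs <;> rfl

end Pool.Agent.Results.MP_892e4c_nt.RandomSumConstants
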